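import Pool.Agent.helper64.PB.SpecB

/-! Row pb:MXK (helper17) -/

set_option autoImplicit false

namespace Pool.Agent.PB

theorem MXK_mono {n : ℕ} (f : BF n) (K L : ℕ) (hK : 1 ≤ K) (hKL : K ≤ L) (h : Inter L f) : Inter K f := by
  intro a ha
  obtain ⟨i, hi⟩ := h (fun j => if hj : (j : ℕ) < K then a ⟨j, hj⟩ else a ⟨0, hK⟩) (fun j => by
    by_cases hj : (j : ℕ) < K
    · simp only [hj, dite_true]; exact ha _
    · simp only [hj, dite_false]; exact ha _)
  refine ⟨i, fun j => ?_⟩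
  have := hi ⟨j, lt_of_lt_of_le j.2 hKL⟩
  simpa using this

theorem MXK_star {n : ℕ} (f : BF n) (h : ¬ Star f) : ∃ K, 1 ≤ K ∧ ¬ Inter K f := by
  classical
  unfold Star at h
  push Not at h
  obtain ⟨⟨x0, hx0⟩, hi⟩ := h
  let S : Finset (Fin n → Bool) := Finset.univ.filter fun x => f x = true
  have hx0S : x0 ∈ S := by
    simp only [S, Finset.mem_filter, Finset.mem_univ, true_and]
    exact Bool.eq_true_of_not_eq_false hx0
  refine ⟨S.card, Finset.card_pos.mpr ⟨x0, hx0S⟩, fun hI => ?_⟩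
  obtain ⟨i, hi'⟩ := hI (fun j => (S.equivFin.symm j : Fin n → Bool)) (fun j => by
    have := (S.equivFin.symm j).2
    exact (Finset.mem_filter.mp this).2)
  obtain ⟨x, hx, hxi⟩ := hi i
  have hxS : x ∈ S := by simp [S, hx]
  have := hi' (S.equivFin ⟨x, hxS⟩)
  simp only [Equiv.symm_apply_apply] at this
  exact hxi this

theorem MXK : MXK_stmt := by
  classical
  intro G hG
  obtain ⟨k0, hk0, hall, hns⟩ := hG
  push Not at hns
  obtain ⟨g0, hg0, hst⟩ := hns
  obtain ⟨K, hK1, hK⟩ := MXK_star g0.2 hst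
  have hex : ∃ m, ∃ g ∈ G, ¬ Inter (k0 + m) g.2 :=
    ⟨K, g0, hg0, fun h => hK (MXK_mono g0.2 K (k0 + K) hK1 (by omega) h)⟩
  have hspec := Nat.find_spec hex
  have hmin := @Nat.find_min _ _ hex
  rcases hm : Nat.find hex with _ | m
  · rw [hm] at hspec
    obtain ⟨g, hg, hn⟩ := hspec
    exact absurd (hall g hg) hn
  · rw [hm] at hspec
    refine ⟨k0 + m, by omega, fun g hg => ?_, ?_⟩
    · by_contra hn
      exact hmin (m := m) (by omega) ⟨g, hg, hn⟩
    · exact hspec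

end Pool.Agent.PB
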